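import Pool.Agent.H698R3.StabWitness

set_option autoImplicit false

/-! Flexible stability in permutations, and a criterion for its failure. -/

namespace Pool.Agent.Y825.PS

open Filter Topology Pool.Agent.H698R3.Stab

/-- The proportion of the points of `X` at which the permutation `σ` of `X` and the permutation
`τ` of the larger set `Y` differ; `X` is regarded as a subset of `Y` by the injection `i`. -/
noncomputable def flexDist {X Y : Type} [Fintype X] (i : X ↪ Y) (σ : Equiv.Perm X)
    (τ : Equiv.Perm Y) : ℝ :=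
  (Nat.card {x : X // i (σ x) ≠ τ (i x)} : ℝ) / (Fintype.card X : ℝ)

/-- Flexible stability of the presentation `G = F_S / N` with quotient map `π`: as permutation
stability, but the exact solutions `ψ n` may act on larger finite sets `Y n ⊇ X n` with
`|Y n| ≤ (1 + o(1)) |X n|`. -/
def FlexStablePresentation {G S : Type} [Group G] (π : FreeGroup S →* G) : Prop :=
  ∀ (X : ℕ → Type) [∀ n, Fintype (X n)] [∀ n, DecidableEq (X n)]
    (φ : ∀ n, FreeGroup S →* Equiv.Perm (X n)),
    (∀ w ∈ π.ker, Tendsto (fun n => hammingDist (φ n w) 1) atTop (𝓝 0)) →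
    ∃ (Y : ℕ → Type) (_ : ∀ n, Finite (Y n)) (i : ∀ n, X n ↪ Y n)
      (ψ : ∀ n, FreeGroup S →* Equiv.Perm (Y n)),
      (∀ ε : ℝ, 0 < ε → ∀ᶠ n in atTop,
        (Nat.card (Y n) : ℝ) ≤ (1 + ε) * (Fintype.card (X n) : ℝ)) ∧
      (∀ n, π.ker ≤ (ψ n).ker) ∧
      ∀ s : S, Tendsto (fun n => flexDist (i n) (φ n (FreeGroup.of s)) (ψ n (FreeGroup.of s)))
        atTop (𝓝 0)

/-- A countable group is flexibly stable (in permutations) if some presentation `G = F_S / N` with
`S` countable is flexibly stable. -/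
def FlexStable (G : Type) [Group G] : Prop :=
  ∃ (S : Type) (_ : Countable S) (π : FreeGroup S →* G),
    Function.Surjective π ∧ FlexStablePresentation π

/-- Permutation stable groups are flexibly stable. -/
theorem flexStable_of_permStable (G : Type) [Group G] (h : PermStable G) : FlexStable G := by
  obtain ⟨S, hS, π, hπ, hst⟩ := h
  refine ⟨S, hS, π, hπ, ?_⟩
  intro X _ _ φ hφ
  obtain ⟨ψ, h1, h2⟩ := hst X φ hφ
  refine ⟨X, fun n => inferInstance, fun n => Function.Embedding.refl _, ψ, ?_, h1, ?_⟩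
  · intro ε hε
    refine Filter.Eventually.of_forall fun n => ?_
    rw [Nat.card_eq_fintype_card]
    have : (0 : ℝ) ≤ (Fintype.card (X n) : ℝ) := Nat.cast_nonneg _
    nlinarith
  · intro s
    refine (h2 s).congr fun n => ?_
    unfold flexDist Pool.Agent.H698R3.Stab.hammingDist
    congr 2
    rw [Nat.card_eq_fintype_card, Fintype.card_subtype]
    rfl

section dist

variable {X Y : Type} [Fintype X] (i : X ↪ Y)

theorem flexDist_nonneg (σ : Equiv.Perm X) (τ : Equiv.Perm Y) : 0 ≤ flexDist i σ τ := by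
  unfold flexDist; positivity

theorem flexDist_one : flexDist i 1 1 = 0 := by
  unfold flexDist
  have : IsEmpty {x : X // i ((1 : Equiv.Perm X) x) ≠ (1 : Equiv.Perm Y) (i x)} :=
    ⟨fun x => x.2 rfl⟩
  rw [Nat.card_of_isEmpty]
  simp

theorem flexDist_inv (σ : Equiv.Perm X) (τ : Equiv.Perm Y) :
    flexDist i σ⁻¹ τ⁻¹ = flexDist i σ τ := by
  unfold flexDist
  congr 2
  refine Nat.card_congr ?_
  refine (Equiv.subtypeEquiv σ⁻¹ fun x => ?_)
  have e : σ (σ⁻¹ x) = x := σ.apply_symm_apply x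
  rw [e, ne_eq, ne_eq, not_iff_not]
  constructor
  · intro h
    rw [h]
    exact (τ.apply_symm_apply _).symm
  · intro h
    rw [h]
    exact (τ.symm_apply_apply _).symm

theorem flexDist_mul (σ σ' : Equiv.Perm X) (τ τ' : Equiv.Perm Y) :
    flexDist i (σ * σ') (τ * τ') ≤ flexDist i σ τ + flexDist i σ' τ' := by
  classical
  unfold flexDist
  rw [← add_div]
  refine div_le_div_of_nonneg_right ?_ (Nat.cast_nonneg _)
  have e1 : Nat.card {x : X // i (σ x) ≠ τ (i x)} =
      Nat.card {x : X // i (σ (σ' x)) ≠ τ (i (σ' x))} :=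
    (Nat.card_congr (Equiv.subtypeEquiv σ' fun x => Iff.rfl)).symm
  rw [e1]
  simp only [Nat.card_eq_fintype_card, Fintype.card_subtype]
  have h : (Finset.univ.filter fun x : X => i ((σ * σ') x) ≠ (τ * τ') (i x)) ⊆
      (Finset.univ.filter fun x : X => i (σ (σ' x)) ≠ τ (i (σ' x))) ∪
      (Finset.univ.filter fun x : X => i (σ' x) ≠ τ' (i x)) := by
    intro x hx
    simp only [Finset.mem_filter, Finset.mem_univ, true_and, Finset.mem_union] at hx ⊢
    by_contra hcon
    push Not at hcon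
    apply hx
    rw [Equiv.Perm.mul_apply, Equiv.Perm.mul_apply, ← hcon.2, ← hcon.1]
  exact_mod_cast (Finset.card_le_card h).trans (Finset.card_union_le _ _)

end dist

theorem tendsto_flex {S : Type} {X Y : ℕ → Type} [∀ n, Fintype (X n)]
    (i : ∀ n, X n ↪ Y n)
    (φ : ∀ n, FreeGroup S →* Equiv.Perm (X n)) (ψ : ∀ n, FreeGroup S →* Equiv.Perm (Y n))
    (h : ∀ s : S, Tendsto (fun n => flexDist (i n) (φ n (FreeGroup.of s)) (ψ n (FreeGroup.of s)))
        atTop (𝓝 0)) (w : FreeGroup S) :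
    Tendsto (fun n => flexDist (i n) (φ n w) (ψ n w)) atTop (𝓝 0) := by
  induction w using FreeGroup.induction_on with
  | C1 => simp [flexDist_one]
  | of s => exact h s
  | inv_of s ih =>
    simpa [map_inv, flexDist_inv] using ih
  | mul x y hx hy =>
    refine squeeze_zero (fun n => flexDist_nonneg _ _ _) (fun n => ?_) (by simpa using hx.add hy)
    rw [map_mul, map_mul]
    exact flexDist_mul _ _ _ _ _

section count

variable {X Y : Type} [Fintype X] [Fintype Y] [DecidableEq Y] (i : X ↪ Y)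

/-- if `τ` is close to the identity of `X` then it is close to the identity of `Y` -/
theorem moved_le (τ : Equiv.Perm Y) (hX : 0 < Fintype.card X) (ε : ℝ)
    (hY : (Fintype.card Y : ℝ) ≤ (1 + ε) * (Fintype.card X : ℝ)) :
    hammingDist τ 1 ≤ flexDist i 1 τ + ε := by
  classical
  have hXY : Fintype.card X ≤ Fintype.card Y := Fintype.card_le_of_embedding i
  have hX' : (0 : ℝ) < (Fintype.card X : ℝ) := by exact_mod_cast hX
  have hXY' : (Fintype.card X : ℝ) ≤ (Fintype.card Y : ℝ) := by exact_mod_cast hXY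
  have hY' : (0 : ℝ) < (Fintype.card Y : ℝ) := hX'.trans_le hXY'
  set bad : Finset X := Finset.univ.filter fun x : X => i ((1 : Equiv.Perm X) x) ≠ τ (i x)
  have e : (Nat.card {x : X // i ((1 : Equiv.Perm X) x) ≠ τ (i x)} : ℝ) = (bad.card : ℝ) := by
    rw [Nat.card_eq_fintype_card, Fintype.card_subtype]
  have h : (Finset.univ.filter fun y : Y => τ y ≠ (1 : Equiv.Perm Y) y) ⊆
      bad.map i ∪ (Finset.univ \ Finset.univ.map i) := by
    intro y hy
    simp only [Finset.mem_filter, Finset.mem_univ, true_and] at hy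
    rw [Finset.mem_union]
    by_cases hyi : y ∈ Finset.univ.map i
    · left
      rw [Finset.mem_map] at hyi ⊢
      obtain ⟨x, _, rfl⟩ := hyi
      refine ⟨x, ?_, rfl⟩
      simp only [bad, Finset.mem_filter, Finset.mem_univ, true_and]
      exact fun h => hy h.symm
    · right
      rw [Finset.mem_sdiff]
      exact ⟨Finset.mem_univ _, hyi⟩
  have h2 := (Finset.card_le_card h).trans (Finset.card_union_le _ _)
  rw [Finset.card_map, Finset.card_sdiff_of_subset (Finset.subset_univ _), Finset.card_map,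
    Finset.card_univ, Finset.card_univ] at h2
  have h3 : ((Finset.univ.filter fun y : Y => τ y ≠ (1 : Equiv.Perm Y) y).card : ℝ) ≤
      (bad.card : ℝ) + ((Fintype.card Y : ℝ) - (Fintype.card X : ℝ)) := by
    rw [← Nat.cast_sub hXY]
    exact_mod_cast h2
  unfold Pool.Agent.H698R3.Stab.hammingDist flexDist
  rw [e]
  calc ((Finset.univ.filter fun y : Y => τ y ≠ (1 : Equiv.Perm Y) y).card : ℝ) /
        (Fintype.card Y : ℝ) ≤ ((bad.card : ℝ) + ((Fintype.card Y : ℝ) - (Fintype.card X : ℝ))) /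
          (Fintype.card Y : ℝ) := div_le_div_of_nonneg_right h3 hY'.le
    _ ≤ ((bad.card : ℝ) + ((Fintype.card Y : ℝ) - (Fintype.card X : ℝ))) /
          (Fintype.card X : ℝ) := by
        refine div_le_div_of_nonneg_left ?_ hX' hXY'
        have : (0 : ℝ) ≤ (bad.card : ℝ) := Nat.cast_nonneg _
        linarith
    _ ≤ (bad.card : ℝ) / (Fintype.card X : ℝ) + ε := by
        rw [add_div]
        have : ((Fintype.card Y : ℝ) - (Fintype.card X : ℝ)) / (Fintype.card X : ℝ) ≤ ε := by
          rw [div_le_iff₀ hX']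
          linarith
        linarith

/-- if `σ` moves all points of `X` and `τ` is close to it then `τ` moves most points of `Y` -/
theorem le_moved (σ : Equiv.Perm X) (τ : Equiv.Perm Y) (hσ : ∀ x, σ x ≠ x)
    (hX : 0 < Fintype.card X) (ε : ℝ) (hε : 0 < ε)
    (hY : (Fintype.card Y : ℝ) ≤ (1 + ε) * (Fintype.card X : ℝ)) :
    (1 - flexDist i σ τ) / (1 + ε) ≤ hammingDist τ 1 := by
  classical
  have hXY : Fintype.card X ≤ Fintype.card Y := Fintype.card_le_of_embedding i
  have hX' : (0 : ℝ) < (Fintype.card X : ℝ) := by exact_mod_cast hX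
  have hXY' : (Fintype.card X : ℝ) ≤ (Fintype.card Y : ℝ) := by exact_mod_cast hXY
  have hY' : (0 : ℝ) < (Fintype.card Y : ℝ) := hX'.trans_le hXY'
  set bad : Finset X := Finset.univ.filter fun x : X => i (σ x) ≠ τ (i x)
  have e : (Nat.card {x : X // i (σ x) ≠ τ (i x)} : ℝ) = (bad.card : ℝ) := by
    rw [Nat.card_eq_fintype_card, Fintype.card_subtype]
  have h : (Finset.univ \ bad).map i ⊆
      (Finset.univ.filter fun y : Y => τ y ≠ (1 : Equiv.Perm Y) y) := by
    intro y hy
    rw [Finset.mem_map] at hy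
    obtain ⟨x, hx, rfl⟩ := hy
    rw [Finset.mem_sdiff] at hx
    have h1 : i (σ x) = τ (i x) := by
      by_contra hcon
      exact hx.2 (by simp only [bad, Finset.mem_filter, Finset.mem_univ, true_and]; exact hcon)
    simp only [Finset.mem_filter, Finset.mem_univ, true_and]
    rw [← h1]
    exact fun h2 => hσ x (i.injective h2)
  have h2 := Finset.card_le_card h
  rw [Finset.card_map, Finset.card_sdiff_of_subset (Finset.subset_univ _), Finset.card_univ] at h2
  have hb : bad.card ≤ Fintype.card X := Finset.card_le_univ _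
  have h3 : (Fintype.card X : ℝ) - (bad.card : ℝ) ≤
      ((Finset.univ.filter fun y : Y => τ y ≠ (1 : Equiv.Perm Y) y).card : ℝ) := by
    rw [← Nat.cast_sub hb]
    exact_mod_cast h2
  have hb' : (bad.card : ℝ) ≤ (Fintype.card X : ℝ) := by exact_mod_cast hb
  unfold Pool.Agent.H698R3.Stab.hammingDist flexDist
  rw [e, div_le_div_iff₀ (by linarith) hY']
  have h4 : (1 - (bad.card : ℝ) / (Fintype.card X : ℝ)) * (Fintype.card X : ℝ) =
      (Fintype.card X : ℝ) - (bad.card : ℝ) := by
    field_simp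
  have h5 : 0 ≤ 1 - (bad.card : ℝ) / (Fintype.card X : ℝ) := by
    rw [sub_nonneg, div_le_one hX']
    exact hb'
  calc (1 - (bad.card : ℝ) / (Fintype.card X : ℝ)) * (Fintype.card Y : ℝ) ≤
        (1 - (bad.card : ℝ) / (Fintype.card X : ℝ)) * ((1 + ε) * (Fintype.card X : ℝ)) :=
        mul_le_mul_of_nonneg_left hY h5
    _ = ((Fintype.card X : ℝ) - (bad.card : ℝ)) * (1 + ε) := by rw [← h4]; ring
    _ ≤ _ := mul_le_mul_of_nonneg_right h3 (by linarith)

end count

/-- A criterion for the failure of flexible stability: `c` is, in every finite quotient, a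
commutator `[z, v]`, but asymptotically multiplicative maps to finite groups kill `z` and
not `c`. -/
theorem not_flex_of_witness {G : Type} [Group G] (z c : G)
    (hfin : ∀ (Q : Type) [Group Q] [Finite Q] (ρ : G →* Q), ∃ v : G, ρ c = ρ (z⁻¹ * v⁻¹ * z * v))
    (E : ℕ → Type) [∀ n, Group (E n)] [∀ n, Finite (E n)]
    (τ : ∀ n, G → E n) (hτ : ∀ g h : G, ∀ᶠ n in atTop, τ n (g * h) = τ n g * τ n h)
    (hz : ∀ᶠ n in atTop, τ n z = 1) (hc : ∀ᶠ n in atTop, τ n c ≠ 1)
    {S : Type} (π : FreeGroup S →* G) (hπ : Function.Surjective π) :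
    ¬ FlexStablePresentation π := by
  classical
  intro hst
  let _ : ∀ n, Fintype (E n) := fun n => Fintype.ofFinite _
  obtain ⟨Y, hYf, i, ψ, hYc, hψ1, hψ2⟩ := hst E
    (fun n => FreeGroup.lift (fun s => Equiv.mulLeft (τ n (π (FreeGroup.of s)))))
    (by
      intro w hw
      refine tendsto_const_nhds.congr' ?_
      filter_upwards [eventually_lift τ hτ π w, eventually_one τ hτ] with n h1 h2
      rw [h1, MonoidHom.mem_ker.mp hw, h2]
      have : (Equiv.mulLeft (1 : E n)) = (1 : Equiv.Perm (E n)) := by ext x; simp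
      rw [this, Pool.Agent.H698R3.Stab.hammingDist_self])
  let _ : ∀ n, Fintype (Y n) := fun n => Fintype.ofFinite _
  have hall := tendsto_flex i _ ψ hψ2
  obtain ⟨wz, hwz⟩ := hπ z
  obtain ⟨wc, hwc⟩ := hπ c
  have hYc' := hYc (1 / 16) (by norm_num)
  have hlt : ∀ w, ∀ᶠ n in atTop, flexDist (i n) ((FreeGroup.lift (fun s =>
        Equiv.mulLeft (τ n (π (FreeGroup.of s)))) w : Equiv.Perm (E n))) (ψ n w) < 1 / 16 :=
    fun w => (hall w).eventually (gt_mem_nhds (by norm_num))
  obtain ⟨n, ha, hb, hcz, hcc, hzz, hee, hYn⟩ := ((hlt wz).and ((hlt wc).and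
    ((eventually_lift τ hτ π wz).and ((eventually_lift τ hτ π wc).and (hz.and (hc.and
      hYc')))))).exists
  rw [Nat.card_eq_fintype_card] at hYn
  have hE : 0 < Fintype.card (E n) := Fintype.card_pos_iff.mpr ⟨1⟩
  -- `ψ n wz` is close to the identity
  have h1 : hammingDist (ψ n wz) 1 ≤ 1 / 8 := by
    rw [hcz, hwz, hzz] at ha
    have e1 : (Equiv.mulLeft (1 : E n)) = (1 : Equiv.Perm (E n)) := by ext x; simp
    rw [e1] at ha
    have h2 := moved_le (i n) (ψ n wz) hE (1 / 16) hYn
    linarith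
  -- `ψ n wc` is far from the identity
  have h2 : 1 / 2 < hammingDist (ψ n wc) 1 := by
    rw [hcc, hwc] at hb
    have h3 := le_moved (i n) (Equiv.mulLeft (τ n c)) (ψ n wc)
      (fun x hx => hee (by simpa using hx)) hE (1 / 16) (by norm_num) hYn
    have h4 : (15 / 16 : ℝ) / (1 + 1 / 16) ≤
        (1 - flexDist (i n) (Equiv.mulLeft (τ n c)) (ψ n wc)) / (1 + 1 / 16) :=
      div_le_div_of_nonneg_right (by linarith) (by norm_num)
    have h5 : (1 / 2 : ℝ) < (15 / 16 : ℝ) / (1 + 1 / 16) := by norm_num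
    linarith
  -- factor `ψ n` through `G`
  let ψ' : G →* Equiv.Perm (Y n) := MonoidHom.liftOfSurjective π hπ ⟨ψ n, hψ1 n⟩
  have hψ' : ∀ w, ψ' (π w) = ψ n w := by
    intro w
    exact MonoidHom.liftOfRightInverse_comp_apply π _ (Function.rightInverse_surjInv hπ)
      ⟨ψ n, hψ1 n⟩ w
  have : Finite (Equiv.Perm (Y n)) := inferInstance
  obtain ⟨v, hv⟩ := hfin (Equiv.Perm (Y n)) ψ'
  obtain ⟨wv, hwv⟩ := hπ v
  have h6 : ψ n wc = (ψ n wz)⁻¹ * ((ψ n wv)⁻¹ * ψ n wz * ((ψ n wv)⁻¹)⁻¹) := by
    rw [← hψ' wc, hwc, hv, map_mul, map_mul, map_mul, map_inv, map_inv, ← hwz, ← hwv, hψ', hψ']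
    group
  have h7 : hammingDist (ψ n wc) 1 ≤ hammingDist (ψ n wz) 1 + hammingDist (ψ n wz) 1 := by
    rw [h6]
    refine (hammingDist_mul_le _ _).trans ?_
    rw [hammingDist_inv, hammingDist_conj]
  linarith

end Pool.Agent.Y825.PS
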