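import Pool.Agent.H698R3.LocFin
import Pool.Agent.H698R3.CE

set_option autoImplicit false

/-! Countable, locally finite, residually finite groups of class two that are not permutation
stable: one for each finite commutative ring. -/

namespace Pool.Agent.Y825.PS

open Filter Topology Pool.Agent.H698R3 Pool.Agent.H698R3.Stab

section defs

variable (R : Type) [CommRing R]

abbrev VV : Type := R × (ℕ →₀ R) × (ℕ →₀ R) × (ℕ →₀ R)
abbrev ZZ : Type := R × (ℕ →₀ R)

variable {R}

/-- sum of all coordinates -/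
noncomputable def sg : (ℕ →₀ R) →+ R := Finsupp.liftAddHom (fun _ => AddMonoidHom.id R)

theorem sg_single (j : ℕ) (a : R) : sg (Finsupp.single j a) = a := by
  simp [sg]

theorem sg_eq_sum (f : ℕ →₀ R) (n : ℕ) (h : ∀ j, n ≤ j → f j = 0) :
    sg f = ∑ i : Fin n, f i := by
  have hsub : f.support ⊆ Finset.range n := by
    intro j hj
    rw [Finsupp.mem_support_iff] at hj
    rw [Finset.mem_range]
    by_contra hcon
    exact hj (h j (not_lt.mp hcon))
  have h1 : sg f = f.sum (fun _ a => a) := by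
    simp only [sg, Finsupp.liftAddHom_apply]
    rfl
  rw [h1, Finsupp.sum_of_support_subset f hsub _ (fun _ _ => rfl), Finset.sum_range]

/-- the cocycle -/
noncomputable def bb : VV R →+ VV R →+ ZZ R :=
  AddMonoidHom.mk' (fun v => AddMonoidHom.mk'
    (fun w => (sg (v.2.2.1 * w.2.2.2), v.1 • w.2.1 - v.2.2.1 * w.2.2.2))
    (by
      intro w w'
      apply Prod.ext
      · simp only [Prod.snd_add, Prod.fst_add, mul_add, map_add]
      · simp only [Prod.snd_add, Prod.fst_add, mul_add, smul_add]; abel))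
    (by
      intro v v'
      ext w
      · simp only [AddMonoidHom.mk'_apply, AddMonoidHom.add_apply, Prod.snd_add, Prod.fst_add,
          add_mul, map_add]
      · simp only [AddMonoidHom.mk'_apply, AddMonoidHom.add_apply, Prod.snd_add, Prod.fst_add,
          add_mul, add_smul, Finsupp.sub_apply, Finsupp.add_apply]; abel)

theorem bb_apply (v w : VV R) :
    bb v w = (sg (v.2.2.1 * w.2.2.2), v.1 • w.2.1 - v.2.2.1 * w.2.2.2) := rfl

variable (R) in
/-- the group -/
abbrev GG : Type := CE (bb (R := R))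

/-- truncation -/
def tr (n : ℕ) : (ℕ →₀ R) →+ (Fin n → R) where
  toFun f i := f i
  map_zero' := rfl
  map_add' _ _ := rfl

variable (R) in
abbrev VF (n : ℕ) : Type := R × (Fin n → R) × (Fin n → R) × (Fin n → R) × R
variable (R) in
abbrev ZF (n : ℕ) : Type := (Fin n → R) × R

def bF (n : ℕ) : VF R n →+ VF R n →+ ZF R n :=
  AddMonoidHom.mk' (fun v => AddMonoidHom.mk'
    (fun w => (v.1 • w.2.1 - v.2.2.1 * w.2.2.2.1, v.1 * w.2.2.2.2))
    (by
      intro w w'
      apply Prod.ext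
      · simp only [Prod.snd_add, Prod.fst_add, mul_add, smul_add]; abel
      · simp only [Prod.snd_add, mul_add]))
    (by
      intro v v'
      apply AddMonoidHom.ext
      intro w
      apply Prod.ext
      · simp only [AddMonoidHom.mk'_apply, AddMonoidHom.add_apply, Prod.snd_add, Prod.fst_add,
          add_mul, add_smul]; abel
      · simp only [AddMonoidHom.mk'_apply, AddMonoidHom.add_apply, Prod.snd_add, Prod.fst_add,
          add_mul])

theorem bF_apply (n : ℕ) (v w : VF R n) :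
    bF n v w = (v.1 • w.2.1 - v.2.2.1 * w.2.2.2.1, v.1 * w.2.2.2.2) := rfl

noncomputable def PF (n : ℕ) : VV R →+ VF R n :=
  AddMonoidHom.mk' (fun v => (v.1, tr n v.2.1, tr n v.2.2.1, tr n v.2.2.2, sg v.2.1)) (by
    intro v w
    simp [map_add])

noncomputable def QF (n : ℕ) : ZZ R →+ ZF R n :=
  AddMonoidHom.mk' (fun z => (tr n z.2, z.1 + sg z.2)) (by
    intro v w
    apply Prod.ext
    · simp [map_add]
    · simp only [map_add, Prod.snd_add, Prod.fst_add]; abel)

theorem exists_bound (f : ℕ →₀ R) : ∃ n, ∀ j, n ≤ j → f j = 0 := by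
  refine ⟨f.support.sup id + 1, ?_⟩
  intro j hj
  by_contra hcon
  have := Finset.le_sup (f := id) (Finsupp.mem_support_iff.mpr hcon)
  simp only [id] at this
  omega

theorem sg_smul (a : R) (f : ℕ →₀ R) : sg (a • f) = a * sg f := by
  obtain ⟨n, hn⟩ := exists_bound f
  rw [sg_eq_sum f n hn, sg_eq_sum (a • f) n (by
    intro j hj
    simp [hn j hj])]
  rw [Finset.mul_sum]
  rfl

theorem compatF (n : ℕ) (v w : VV R) : QF n (bb v w) = bF n (PF n v) (PF n w) := by
  rw [bb_apply, bF_apply]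
  apply Prod.ext
  · show tr n (v.1 • w.2.1 - v.2.2.1 * w.2.2.2) = v.1 • tr n w.2.1 - tr n v.2.2.1 * tr n w.2.2.2
    rw [map_sub]
    rfl
  · show sg (v.2.2.1 * w.2.2.2) + sg (v.1 • w.2.1 - v.2.2.1 * w.2.2.2) = v.1 * sg w.2.1
    rw [map_sub, sg_smul]
    abel

/-- finite quotients -/
noncomputable def rho (n : ℕ) : GG R →* CE (bF (R := R) n) :=
  CE.map (bb (R := R)) (bF (R := R) n) (PF n) (QF n) (compatF n)

/-- finitely supported elements -/
def An (n : ℕ) : AddSubgroup (VV R) where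
  carrier := {v | ∀ j, n ≤ j → v.2.1 j = 0 ∧ v.2.2.1 j = 0 ∧ v.2.2.2 j = 0}
  add_mem' := by
    intro a b ha hb j hj
    obtain ⟨h1, h2, h3⟩ := ha j hj
    obtain ⟨h4, h5, h6⟩ := hb j hj
    simp [h1, h2, h3, h4, h5, h6]
  zero_mem' := by intro j _; simp
  neg_mem' := by
    intro a ha j hj
    obtain ⟨h1, h2, h3⟩ := ha j hj
    simp [h1, h2, h3]

def Bn (n : ℕ) : AddSubgroup (ZZ R) where
  carrier := {z | ∀ j, n ≤ j → z.2 j = 0}
  add_mem' := by
    intro a b ha hb j hj
    simp [ha j hj, hb j hj]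
  zero_mem' := by intro j _; simp
  neg_mem' := by
    intro a ha j hj
    simp [ha j hj]

theorem hAB (n : ℕ) : ∀ v ∈ An (R := R) n, ∀ w ∈ An (R := R) n, bb v w ∈ Bn (R := R) n := by
  intro v hv w hw j hj
  obtain ⟨h1, h2, h3⟩ := hv j hj
  obtain ⟨h4, h5, h6⟩ := hw j hj
  rw [bb_apply]
  simp [h2, h4, h6]

/-- the exhausting sequence of finite subgroups -/
noncomputable def Gsub (n : ℕ) : Subgroup (GG R) := CE.sub (bb (R := R)) (An n) (Bn n) (hAB n)

theorem Gsub_mono : Monotone (Gsub (R := R)) := by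
  intro m n hmn g hg
  exact ⟨fun j hj => hg.1 j (hmn.trans hj), fun j hj => hg.2 j (hmn.trans hj)⟩

theorem Gsub_exhaust (g : GG R) : ∃ n, g ∈ Gsub (R := R) n := by
  obtain ⟨n1, h1⟩ := exists_bound g.v.2.1
  obtain ⟨n2, h2⟩ := exists_bound g.v.2.2.1
  obtain ⟨n3, h3⟩ := exists_bound g.v.2.2.2
  obtain ⟨n4, h4⟩ := exists_bound g.z.2
  refine ⟨max (max n1 n2) (max n3 n4), fun j hj => ⟨h1 j ?_, h2 j ?_, h3 j ?_⟩, fun j hj => h4 j ?_⟩
  all_goals simp only [max_le_iff] at hj; omega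

theorem rho_inj (n : ℕ) (g : GG R) (hg : g ∈ Gsub (R := R) n) (h : rho n g = 1) : g = 1 := by
  have h1 : PF n g.v = 0 := congrArg CE.v h
  have h2 : QF n g.z = 0 := congrArg CE.z h
  have e1 : g.v.1 = 0 := congrArg (fun t : VF R n => t.1) h1
  have e2 : tr n g.v.2.1 = 0 := congrArg (fun t : VF R n => t.2.1) h1
  have e3 : tr n g.v.2.2.1 = 0 := congrArg (fun t : VF R n => t.2.2.1) h1
  have e4 : tr n g.v.2.2.2 = 0 := congrArg (fun t : VF R n => t.2.2.2.1) h1
  have e5 : tr n g.z.2 = 0 := congrArg (fun t : ZF R n => t.1) h2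
  have e6 : g.z.1 + sg g.z.2 = 0 := congrArg (fun t : ZF R n => t.2) h2
  have key : ∀ f : ℕ →₀ R, tr n f = 0 → (∀ j, n ≤ j → f j = 0) → f = 0 := by
    intro f hf hj
    ext j
    by_cases hjn : j < n
    · exact congrFun hf ⟨j, hjn⟩
    · exact hj j (not_lt.mp hjn)
  have f1 := key _ e2 (fun j hj => (hg.1 j hj).1)
  have f2 := key _ e3 (fun j hj => (hg.1 j hj).2.1)
  have f3 := key _ e4 (fun j hj => (hg.1 j hj).2.2)
  have f4 := key _ e5 (fun j hj => hg.2 j hj)
  rw [f4, map_zero, add_zero] at e6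
  apply CE.ext
  · exact Prod.ext e1 (Prod.ext f1 (Prod.ext f2 f3))
  · exact Prod.ext e6 f4

theorem Gsub_fin [Finite R] (n : ℕ) : Finite (Gsub (R := R) n) := by
  refine Finite.of_injective (fun g : Gsub (R := R) n => rho n g.1) ?_
  intro g h hgh
  have h1 : rho n (g.1⁻¹ * h.1) = 1 := by
    rw [map_mul, map_inv]
    have : rho n g.1 = rho n h.1 := hgh
    rw [this, inv_mul_cancel]
  have h2 := rho_inj n _ ((Gsub n).mul_mem ((Gsub n).inv_mem g.2) h.2) h1
  exact Subtype.ext (inv_mul_eq_one.mp h2)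

/-- powers -/
theorem ce_pow {V Z : Type} [AddCommGroup V] [AddCommGroup Z] (β : V →+ V →+ Z) (x : CE β) (k : ℕ) :
    x ^ k = ⟨k • x.v, k • x.z + (k.choose 2) • β x.v x.v⟩ := by
  induction k with
  | zero =>
    rw [pow_zero, CE.one_def]
    simp
  | succ k ih =>
    rw [pow_succ, ih, CE.mul_def]
    have hc : (k + 1).choose 2 = k.choose 2 + k := by
      rw [Nat.choose_succ_succ', Nat.choose_one_right, add_comm]
    ext
    · simp only [succ_nsmul]
    · simp only [hc, succ_nsmul, add_nsmul, map_nsmul, AddMonoidHom.nsmul_apply]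
      abel

theorem ce_comm_mem {V Z : Type} [AddCommGroup V] [AddCommGroup Z] (β : V →+ V →+ Z)
    (x y : CE β) : x * y * x⁻¹ * y⁻¹ ∈ Subgroup.center (CE β) := by
  have h : x * y * x⁻¹ * y⁻¹ = (⟨0, β x.v y.v - β y.v x.v⟩ : CE β) := by
    rw [CE.inv_def, CE.inv_def, CE.mul_def, CE.mul_def, CE.mul_def]
    ext
    · simp only; abel
    · simp only [map_add, map_neg, AddMonoidHom.add_apply, AddMonoidHom.neg_apply]; abel
  rw [h, Subgroup.mem_center_iff]
  intro g
  rw [CE.mul_def, CE.mul_def]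
  ext
  · simp only [add_zero, zero_add]
  · simp only [map_zero, AddMonoidHom.zero_apply, add_zero]; abel

end defs

section nonstable

variable {R : Type} [CommRing R]

/-- truncated cocycle -/
def bE (n : ℕ) : ((Fin n → R) × (Fin n → R)) →+ ((Fin n → R) × (Fin n → R)) →+ R :=
  AddMonoidHom.mk' (fun v => AddMonoidHom.mk' (fun w => ∑ i, v.1 i * w.2 i)
    (by
      intro w w'
      simp only [Prod.snd_add, Pi.add_apply, mul_add, Finset.sum_add_distrib]))
    (by
      intro v v'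
      apply AddMonoidHom.ext
      intro w
      simp only [AddMonoidHom.mk'_apply, AddMonoidHom.add_apply, Prod.fst_add, Pi.add_apply,
        add_mul, Finset.sum_add_distrib])

/-- asymptotically multiplicative maps to finite groups -/
noncomputable def tau (n : ℕ) (g : GG R) : CE (bE (R := R) n) :=
  ⟨(tr n g.v.2.2.1, tr n g.v.2.2.2), g.z.1⟩

theorem tau_mul (g h : GG R) : ∀ᶠ n in atTop, tau n (g * h) = tau n g * tau n h := by
  obtain ⟨n0, hn0⟩ := exists_bound g.v.2.2.1
  filter_upwards [eventually_ge_atTop n0] with n hn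
  apply CE.ext
  · rfl
  · show g.z.1 + h.z.1 + sg (g.v.2.2.1 * h.v.2.2.2) =
      g.z.1 + h.z.1 + ∑ i : Fin n, g.v.2.2.1 i * h.v.2.2.2 i
    rw [sg_eq_sum _ n]
    · rfl
    · intro j hj
      rw [Finsupp.mul_apply, hn0 j (hn.trans hj), zero_mul]

variable (R) in
/-- the element that is killed -/
noncomputable def zz : GG R := ⟨(1, 0, 0, 0), 0⟩
variable (R) in
/-- the central element that survives -/
noncomputable def cc : GG R := ⟨0, (1, 0)⟩

theorem cc_finite (Q : Type) [Group Q] [Finite Q] (ρ : GG R →* Q) :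
    ∃ v : GG R, ρ (cc R) = ρ ((zz R)⁻¹ * v⁻¹ * zz R * v) := by
  classical
  let a : ℕ → GG R := fun j => ⟨(0, 0, Finsupp.single j 1, 0), 0⟩
  obtain ⟨j, j', hne, hjj⟩ := Finite.exists_ne_map_eq_of_infinite (fun j => ρ (a j))
  let b : GG R := ⟨(0, 0, 0, Finsupp.single j 1), 0⟩
  have h1 : ρ ((a j)⁻¹ * b⁻¹ * a j * b) = ρ ((a j')⁻¹ * b⁻¹ * a j' * b) := by
    have hjj' : ρ (a j) = ρ (a j') := hjj
    simp only [map_mul, map_inv, hjj']
  have h2 : (a j')⁻¹ * b⁻¹ * a j' * b = 1 := by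
    rw [CE.comm_eq, bb_apply, bb_apply]
    have e : (Finsupp.single j' (1 : R)) * (Finsupp.single j (1 : R)) = 0 := by
      ext k
      rw [Finsupp.mul_apply, Finsupp.single_apply, Finsupp.single_apply]
      by_cases hk : j' = k
      · subst hk
        simp [hne]
      · simp [hk]
    apply CE.ext
    · rfl
    · show (sg (Finsupp.single j' 1 * Finsupp.single j 1),
          (0 : R) • (0 : ℕ →₀ R) - Finsupp.single j' 1 * Finsupp.single j 1) -
          (sg ((0 : ℕ →₀ R) * 0), (0 : R) • (0 : ℕ →₀ R) - 0 * 0) = 0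
      rw [e]
      simp
  have h3 : (a j)⁻¹ * b⁻¹ * a j * b = ⟨0, (1, -Finsupp.single j 1)⟩ := by
    rw [CE.comm_eq, bb_apply, bb_apply]
    have e : (Finsupp.single j (1 : R)) * (Finsupp.single j (1 : R)) = Finsupp.single j 1 := by
      ext k
      rw [Finsupp.mul_apply, Finsupp.single_apply]
      by_cases hk : j = k <;> simp [hk]
    apply CE.ext
    · rfl
    · show (sg (Finsupp.single j 1 * Finsupp.single j 1),
          (0 : R) • (0 : ℕ →₀ R) - Finsupp.single j 1 * Finsupp.single j 1) -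
          (sg ((0 : ℕ →₀ R) * 0), (0 : R) • (0 : ℕ →₀ R) - 0 * 0) = _
      rw [e, sg_single]
      simp
  rw [h2, h3, map_one] at h1
  refine ⟨⟨(0, Finsupp.single j 1, 0, 0), 0⟩, ?_⟩
  have h4 : (zz R)⁻¹ * (⟨(0, Finsupp.single j 1, 0, 0), 0⟩ : GG R)⁻¹ * zz R *
      ⟨(0, Finsupp.single j 1, 0, 0), 0⟩ = ⟨0, (0, Finsupp.single j 1)⟩ := by
    rw [CE.comm_eq, bb_apply, bb_apply]
    apply CE.ext
    · rfl
    · show (sg ((0 : ℕ →₀ R) * 0), (1 : R) • (Finsupp.single j 1 : ℕ →₀ R) - 0 * 0) -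
          (sg ((0 : ℕ →₀ R) * 0), (0 : R) • (0 : ℕ →₀ R) - 0 * 0) = _
      simp
  rw [h4]
  have h5 : cc R = (⟨0, (1, -Finsupp.single j 1)⟩ : GG R) * ⟨0, (0, Finsupp.single j 1)⟩ := by
    rw [CE.mul_def]
    apply CE.ext
    · show (0 : VV R) = 0 + 0
      rw [add_zero]
    · show ((1 : R), (0 : ℕ →₀ R)) =
        (1, -Finsupp.single j 1) + (0, Finsupp.single j 1) + bb 0 0
      rw [map_zero, add_zero]
      simp
  rw [h5, map_mul, h1, one_mul]

/-- The product of the group with an arbitrary group is not permutation stable. -/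
theorem not_stable_prod [Finite R] [Nontrivial R] (H : Type) [Group H] :
    ¬ PermStable (GG R × H) := by
  rintro ⟨S, _, π, hπ, hst⟩
  refine not_stable_of_witness (G := GG R × H) (zz R, 1) (cc R, 1) ?_
    (fun n => CE (bE (R := R) n)) (fun n g => tau n g.1) ?_ ?_ ?_ π hπ hst
  · intro Q _ _ ρ
    obtain ⟨v, hv⟩ := cc_finite Q (ρ.comp (MonoidHom.inl (GG R) H))
    refine ⟨(v, 1), ?_⟩
    have e : ((zz R, 1) : GG R × H)⁻¹ * (v, 1)⁻¹ * (zz R, 1) * (v, 1) =
        MonoidHom.inl (GG R) H ((zz R)⁻¹ * v⁻¹ * zz R * v) := by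
      ext <;> simp
    rw [e]
    exact hv
  · intro g h
    exact tau_mul g.1 h.1
  · refine Filter.Eventually.of_forall (fun n => ?_)
    rfl
  · refine Filter.Eventually.of_forall (fun n h => ?_)
    have h1 : (1 : R) = 0 := congrArg CE.z h
    exact one_ne_zero h1

theorem not_stable [Finite R] [Nontrivial R] : ¬ PermStable (GG R) := by
  rintro ⟨S, _, π, hπ, hst⟩
  refine not_stable_of_witness (zz R) (cc R) cc_finite (fun n => CE (bE (R := R) n)) tau tau_mul
    ?_ ?_ π hπ hst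
  · refine Filter.Eventually.of_forall (fun n => ?_)
    rfl
  · refine Filter.Eventually.of_forall (fun n h => ?_)
    have h1 : (1 : R) = 0 := congrArg CE.z h
    exact one_ne_zero h1

end nonstable

end Pool.Agent.Y825.PS
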