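import Pool.Agent.H698R3.LocFin

set_option autoImplicit false

/-! Products of a locally finite residually finite group with an amenable LERF group. -/

namespace Pool.Agent.Y825.PS

open Filter Topology Pool.Agent.H698R3.Stab

section
variable {G : Type} [Group G] (Gn : ℕ → Subgroup G) (hmono : Monotone Gn)
  (hex : ∀ g : G, ∃ n, g ∈ Gn n)

include hmono hex in
/-- A finitely generated subgroup of `G × H` has its first components in one `Gn n`. -/
theorem exists_level {H : Type} [Group H] (L : Subgroup (G × H)) (hL : L.FG) (g : G) :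
    ∃ n, g ∈ Gn n ∧ ∀ l ∈ L, l.1 ∈ Gn n := by
  obtain ⟨S, hS⟩ := hL
  obtain ⟨n0, hn0⟩ := hex g
  have : ∃ m, ∀ s ∈ S, s.1 ∈ Gn m := by
    classical
    clear hS
    induction S using Finset.induction_on with
    | empty => exact ⟨0, by simp⟩
    | insert a S _ ih =>
      obtain ⟨m, hm⟩ := ih
      obtain ⟨k, hk⟩ := hex a.1
      refine ⟨max m k, ?_⟩
      intro s hs
      rw [Finset.mem_insert] at hs
      rcases hs with rfl | hs
      · exact hmono (le_max_right m k) hk
      · exact hmono (le_max_left m k) (hm s hs)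
  obtain ⟨m, hm⟩ := this
  refine ⟨max n0 m, hmono (le_max_left _ _) hn0, fun l hl => ?_⟩
  have hle : L ≤ (Gn (max n0 m)).comap (MonoidHom.fst G H) := by
    rw [← hS, Subgroup.closure_le]
    intro s hs
    exact hmono (le_max_right _ _) (hm s hs)
  exact hle hl

include hmono hex in
theorem locFin_of_exhaustion (hfin : ∀ n, Finite (Gn n)) (K : Subgroup G) (hK : K.FG) :
    Finite K := by
  obtain ⟨S, hS⟩ := hK
  have : ∃ m, ∀ s ∈ S, s ∈ Gn m := by
    classical
    clear hS
    induction S using Finset.induction_on with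
    | empty => exact ⟨0, by simp⟩
    | insert a S _ ih =>
      obtain ⟨m, hm⟩ := ih
      obtain ⟨k, hk⟩ := hex a
      refine ⟨max m k, ?_⟩
      intro s hs
      rw [Finset.mem_insert] at hs
      rcases hs with rfl | hs
      · exact hmono (le_max_right m k) hk
      · exact hmono (le_max_left m k) (hm s hs)
  obtain ⟨m, hm⟩ := this
  have hle : K ≤ Gn m := by
    rw [← hS, Subgroup.closure_le]
    exact hm
  have := hfin m
  exact Finite.of_injective (Subgroup.inclusion hle) (Subgroup.inclusion_injective hle)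

/-- the second components of the elements of `L` with trivial first component -/
def fiber {G H : Type} [Group G] [Group H] (L : Subgroup (G × H)) : Subgroup H :=
  L.comap (MonoidHom.inr G H)

theorem mem_fiber {G H : Type} [Group G] [Group H] (L : Subgroup (G × H)) (b : H) :
    b ∈ fiber L ↔ ((1 : G), b) ∈ L := Iff.rfl

theorem fiber_fg {G H : Type} [Group G] [Group H] (L : Subgroup (G × H)) (hL : L.FG)
    (A : Subgroup G) [Finite A] (hA : ∀ l ∈ L, l.1 ∈ A) : (fiber L).FG := by
  let f : L →* A := ((MonoidHom.fst G H).comp L.subtype).codRestrict A (fun l => hA l.1 l.2)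
  have h1 : f.ker.FiniteIndex := inferInstance
  have h2 : Group.FG L := (Group.fg_iff_subgroup_fg L).mpr hL
  have h3 : Group.FG f.ker := Subgroup.fg_of_index_ne_zero f.ker
  let φ : f.ker →* H := ((MonoidHom.snd G H).comp L.subtype).comp f.ker.subtype
  have h5 : φ.range.FG := (Group.fg_iff_subgroup_fg _).mp (Group.fg_range φ)
  convert h5 using 1
  ext b
  rw [mem_fiber, MonoidHom.mem_range]
  constructor
  · intro hb
    refine ⟨⟨⟨((1 : G), b), hb⟩, ?_⟩, rfl⟩
    rw [MonoidHom.mem_ker]
    exact Subtype.ext rfl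
  · rintro ⟨⟨⟨⟨a, b'⟩, hl⟩, hk⟩, rfl⟩
    rw [MonoidHom.mem_ker] at hk
    have ha : a = 1 := congrArg Subtype.val hk
    subst ha
    exact hl

include hmono hex in
theorem lerf_prod (hfin : ∀ n, ∃ (Q : Type) (_ : Group Q) (_ : Finite Q) (ρ : G →* Q),
      ∀ g ∈ Gn n, ρ g = 1 → g = 1) {H : Type} [Group H] (hH : LERF H) : LERF (G × H) := by
  intro L hL g hg
  obtain ⟨n, hn1, hn2⟩ := exists_level Gn hmono hex L hL g.1
  obtain ⟨Q, _, _, ρ, hρ⟩ := hfin n
  have hfinn : Finite (Gn n) := by
    refine Finite.of_injective (fun g : Gn n => ρ g.1) ?_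
    intro a b hab
    have h1 : ρ (a.1⁻¹ * b.1) = 1 := by
      rw [map_mul, map_inv]
      have : ρ a.1 = ρ b.1 := hab
      rw [this, inv_mul_cancel]
    have h2 := hρ _ ((Gn n).mul_mem ((Gn n).inv_mem a.2) b.2) h1
    exact Subtype.ext (inv_mul_eq_one.mp h2)
  have hfg : (fiber L).FG := fiber_fg L hL (Gn n) hn2
  -- a subgroup of finite index of `H`
  obtain ⟨U, hU1, hU2, hU3⟩ : ∃ U : Subgroup H, U.FiniteIndex ∧ fiber L ≤ U ∧
      ∀ b, (g.1, b) ∈ L → b⁻¹ * g.2 ∉ U := by
    by_cases hb : ∃ b, (g.1, b) ∈ L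
    · obtain ⟨b, hb⟩ := hb
      have hnot : b⁻¹ * g.2 ∉ fiber L := by
        intro hmem
        apply hg
        have h1 := L.mul_mem hb ((mem_fiber L _).mp hmem)
        have h2 : (g.1, b) * ((1 : G), b⁻¹ * g.2) = g := by
          ext
          · show g.1 * 1 = g.1
            rw [mul_one]
          · show b * (b⁻¹ * g.2) = g.2
            rw [mul_inv_cancel_left]
        rwa [h2] at h1
      obtain ⟨U, hU1, hU2, hU3⟩ := hH (fiber L) hfg _ hnot
      refine ⟨U, hU1, hU2, fun b' hb' hmem => hU3 ?_⟩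
      have h3 : ((1 : G), b⁻¹ * b') ∈ L := by
        have h4 := L.mul_mem (L.inv_mem hb) hb'
        have h5 : (g.1, b)⁻¹ * (g.1, b') = ((1 : G), b⁻¹ * b') := by
          ext
          · show g.1⁻¹ * g.1 = 1
            rw [inv_mul_cancel]
          · rfl
        rwa [h5] at h4
      have h6 : b⁻¹ * g.2 = (b⁻¹ * b') * (b'⁻¹ * g.2) := by group
      rw [h6]
      exact U.mul_mem (hU2 ((mem_fiber L _).mpr h3)) hmem
    · refine ⟨⊤, inferInstance, le_top, fun b hb' => absurd ⟨b, hb'⟩ hb⟩
  have hN : U.normalCore.FiniteIndex := inferInstance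
  have hNf : Finite (H ⧸ U.normalCore) := Subgroup.finite_quotient_of_finiteIndex
  let σ : G × H →* Q × (H ⧸ U.normalCore) := ρ.prodMap (QuotientGroup.mk' U.normalCore)
  refine ⟨L ⊔ σ.ker, ?_, le_sup_left, ?_⟩
  · have h1 : σ.ker.FiniteIndex := inferInstance
    exact Subgroup.finiteIndex_of_le (le_sup_right : σ.ker ≤ L ⊔ σ.ker)
  · intro hmem
    rw [Subgroup.mem_sup_of_normal_right] at hmem
    obtain ⟨y, hy, z, hz, hyz⟩ := hmem
    rw [MonoidHom.mem_ker] at hz
    have hz1 : ρ z.1 = 1 := congrArg Prod.fst hz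
    have hz2 : z.2 ∈ U.normalCore := by
      have : (QuotientGroup.mk' U.normalCore) z.2 = 1 := congrArg Prod.snd hz
      rwa [← MonoidHom.mem_ker, QuotientGroup.ker_mk'] at this
    have e1 : y.1 * z.1 = g.1 := congrArg Prod.fst hyz
    have e2 : y.2 * z.2 = g.2 := congrArg Prod.snd hyz
    have h2 : z.1 ∈ Gn n := by
      have : z.1 = y.1⁻¹ * g.1 := by rw [← e1]; group
      rw [this]
      exact (Gn n).mul_mem ((Gn n).inv_mem (hn2 y hy)) hn1
    have h3 : z.1 = 1 := hρ _ h2 hz1
    rw [h3, mul_one] at e1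
    refine hU3 y.2 ?_ ?_
    · rw [← e1]
      exact hy
    · rw [← e2, inv_mul_cancel_left]
      exact Subgroup.normalCore_le U hz2

include hmono hex in
theorem amenable_prod (hfin : ∀ n, Finite (Gn n)) {H : Type} [Group H] (hH : Amenable H) :
    Amenable (G × H) := by
  classical
  obtain ⟨μ, hμ0, hμ1, hμa, hμi⟩ := hH
  have hμle : ∀ A, μ A ≤ 1 := by
    intro A
    have h1 := hμa A Aᶜ disjoint_compl_right
    rw [Set.union_compl_self, hμ1] at h1
    have h2 := hμ0 Aᶜ
    linarith
  let F : ∀ n, Finset G := fun n => (Set.toFinite (Gn n : Set G)).toFinset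
  have hF : ∀ n g, g ∈ F n ↔ g ∈ Gn n := by
    intro n g
    simp [F]
  let r : Set (G × H) → ℕ → ℝ := fun A n =>
    (∑ k ∈ F n, μ {h | (k, h) ∈ A}) / ((F n).card : ℝ)
  have hpos : ∀ n, 0 < ((F n).card : ℝ) := by
    intro n
    have : (F n).Nonempty := ⟨1, (hF n 1).mpr (Gn n).one_mem⟩
    exact_mod_cast this.card_pos
  have hr0 : ∀ A n, 0 ≤ r A n := fun A n =>
    div_nonneg (Finset.sum_nonneg fun k _ => hμ0 _) (hpos n).le
  have hr1 : ∀ A n, r A n ≤ 1 := by
    intro A n
    rw [div_le_one (hpos n)]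
    calc ∑ k ∈ F n, μ {h | (k, h) ∈ A} ≤ ∑ k ∈ F n, (1 : ℝ) :=
          Finset.sum_le_sum fun k _ => hμle _
      _ = ((F n).card : ℝ) := by simp
  have hlim : ∀ A : Set (G × H), ∃ a ∈ Set.Icc (0 : ℝ) 1,
      Tendsto (r A) (hyperfilter ℕ) (𝓝 a) := by
    intro A
    have hc : IsCompact (Set.Icc (0 : ℝ) 1) := isCompact_Icc
    obtain ⟨a, ha, hle⟩ := hc.ultrafilter_le_nhds ((hyperfilter ℕ).map (r A)) (by
      rw [Filter.le_principal_iff]
      show r A ⁻¹' (Set.Icc (0 : ℝ) 1) ∈ (hyperfilter ℕ : Filter ℕ)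
      exact Filter.univ_mem' (fun n => ⟨hr0 A n, hr1 A n⟩))
    exact ⟨a, ha, hle⟩
  choose ν hν1 hν2 using hlim
  refine ⟨ν, fun A => (hν1 A).1, ?_, ?_, ?_⟩
  · refine tendsto_nhds_unique (hν2 Set.univ) ?_
    refine tendsto_const_nhds.congr ?_
    intro n
    show 1 = r Set.univ n
    have : ∀ k : G, {h : H | (k, h) ∈ (Set.univ : Set (G × H))} = Set.univ := by
      intro k; ext h; simp
    simp only [r, this, hμ1, Finset.sum_const, nsmul_eq_mul, mul_one]
    rw [div_self (hpos n).ne']
  · intro A B hAB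
    refine tendsto_nhds_unique (hν2 (A ∪ B)) ?_
    refine ((hν2 A).add (hν2 B)).congr ?_
    intro n
    show r A n + r B n = r (A ∪ B) n
    simp only [r]
    rw [← add_div, ← Finset.sum_add_distrib]
    congr 1
    refine Finset.sum_congr rfl fun k _ => ?_
    rw [← hμa]
    · rfl
    · rw [Set.disjoint_left]
      intro h hhA hhB
      exact Set.disjoint_left.mp hAB hhA hhB
  · intro g A
    refine tendsto_nhds_unique (hν2 _) ?_
    refine (hν2 A).congr' ?_
    obtain ⟨n0, hn0⟩ := hex g.1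
    have : ∀ᶠ n in atTop, r A n = r ((fun x => g * x) '' A) n := by
      filter_upwards [eventually_ge_atTop n0] with n hn
      have hg : g.1 ∈ Gn n := hmono hn hn0
      simp only [r]
      congr 1
      refine Finset.sum_bij (fun x _ => g.1 * x) ?_ ?_ ?_ ?_
      · intro x hx
        exact (hF n _).mpr ((Gn n).mul_mem hg ((hF n x).mp hx))
      · intro x _ y _ h
        exact mul_left_cancel h
      · intro y hy
        refine ⟨g.1⁻¹ * y, (hF n _).mpr ((Gn n).mul_mem ((Gn n).inv_mem hg) ((hF n _).mp hy)), ?_⟩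
        rw [mul_inv_cancel_left]
      · intro x hx
        rw [← hμi g.2]
        congr 1
        ext h
        constructor
        · rintro ⟨h', hh', rfl⟩
          exact ⟨(x, h'), hh', rfl⟩
        · rintro ⟨⟨a, b⟩, hab, he⟩
          have e1 : g.1 * a = g.1 * x := congrArg Prod.fst he
          have e2 : g.2 * b = h := congrArg Prod.snd he
          have e3 : a = x := mul_left_cancel e1
          subst e3
          exact ⟨b, hab, e2⟩
    exact (Nat.hyperfilter_le_atTop : (hyperfilter ℕ : Filter ℕ) ≤ atTop) this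

end

end Pool.Agent.Y825.PS
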